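import Pool.Agent.Y922.NV.Stm

set_option autoImplicit false

/-! Poles of `M` by the phase (S_POLE). -/

namespace Pool.Agent.Y369.NV

open Pool.Agent.Y922.NV Complex ComplexConjugate Filter Topology
open scoped Real

variable {ι : Type}

lemma factor (a : ℂ) (ha : 0 < a.im) (x : ℝ) :
    ((x : ℂ) - a) = ((x : ℂ) - conj a) *
      Complex.exp (((π + 2 * Real.arctan ((x - a.re) / a.im) : ℝ) : ℂ) * I) := by
  obtain ⟨w, hw⟩ : ∃ w : ℝ, w = (x - a.re) / a.im := ⟨_, rfl⟩
  rw [← hw]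
  have hx : x - a.re = w * a.im := by rw [hw]; field_simp
  have hcos : Real.cos (π + 2 * Real.arctan w) = (w ^ 2 - 1) / (1 + w ^ 2) := by
    rw [add_comm, Real.cos_add_pi, Real.cos_two_mul, Real.cos_sq_arctan]
    field_simp
    ring
  have hsin : Real.sin (π + 2 * Real.arctan w) = -(2 * w) / (1 + w ^ 2) := by
    rw [add_comm, Real.sin_add_pi, Real.sin_two_mul, Real.sin_arctan, Real.cos_arctan]
    have h1 : Real.sqrt (1 + w ^ 2) * Real.sqrt (1 + w ^ 2) = 1 + w ^ 2 :=
      Real.mul_self_sqrt (by positivity)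
    have h2 : 0 < Real.sqrt (1 + w ^ 2) := Real.sqrt_pos.mpr (by positivity)
    have e : 2 * (w / Real.sqrt (1 + w ^ 2)) * (1 / Real.sqrt (1 + w ^ 2)) =
        2 * w / (Real.sqrt (1 + w ^ 2) * Real.sqrt (1 + w ^ 2)) := by
      field_simp
    rw [e, h1, neg_div]
  have hpos : (0 : ℝ) < 1 + w ^ 2 := by positivity
  apply Complex.ext
  · rw [Complex.mul_re, Complex.exp_ofReal_mul_I_re, Complex.exp_ofReal_mul_I_im, hcos, hsin]
    simp only [Complex.sub_re, Complex.ofReal_re, Complex.sub_im, Complex.ofReal_im,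
      Complex.conj_re, Complex.conj_im]
    rw [hx]
    field_simp
    ring
  · rw [Complex.mul_im, Complex.exp_ofReal_mul_I_re, Complex.exp_ofReal_mul_I_im, hcos, hsin]
    simp only [Complex.sub_re, Complex.ofReal_re, Complex.sub_im, Complex.ofReal_im,
      Complex.conj_re, Complex.conj_im]
    rw [hx]
    field_simp
    ring

lemma PP_QQ (s : Finset ι) (a : ι → ℂ) (ha : ∀ i ∈ s, 0 < (a i).im) (x : ℝ) :
    PP s a x = QQ s a x * Complex.exp ((theta s a x : ℂ) * I) := by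
  unfold PP QQ theta
  push_cast
  rw [Finset.sum_mul, Complex.exp_sum, ← Finset.prod_mul_distrib]
  refine Finset.prod_congr rfl fun i hi => ?_
  have h := factor (a i) (ha i hi) x
  push_cast at h
  exact h

lemma QQ_ne (s : Finset ι) (a : ι → ℂ) (ha : ∀ i ∈ s, 0 < (a i).im) (z : ℂ) (hz : 0 ≤ z.im) :
    QQ s a z ≠ 0 := by
  unfold QQ
  rw [Finset.prod_ne_zero_iff]
  intro i hi h
  have h1 := congrArg Complex.im h
  rw [Complex.sub_im, Complex.conj_im, Complex.zero_im] at h1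
  have := ha i hi
  linarith

lemma diff_PP (s : Finset ι) (a : ι → ℂ) : Differentiable ℂ (PP s a) := by
  unfold PP
  fun_prop

lemma diff_QQ (s : Finset ι) (a : ι → ℂ) : Differentiable ℂ (QQ s a) := by
  unfold QQ
  fun_prop

lemma cont_theta (s : Finset ι) (a : ι → ℂ) : Continuous (theta s a) := by
  unfold theta
  apply continuous_finsetSum
  intro i _
  exact continuous_const.add (continuous_const.mul (Real.continuous_arctan.comp
    ((continuous_id.sub continuous_const).div_const _)))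

/-- poles -/
lemma pole (s : Finset ι) (a : ι → ℂ) (hs : s.Nonempty) (ha : ∀ i ∈ s, 0 < (a i).im) (x : ℝ)
    (n : ℤ) (hx : theta s a x = 2 * π * n) : 1 ≤ poleMult (MM s a) (x : ℂ) := by
  have hPQ : PP s a x = QQ s a x := by
    rw [PP_QQ s a ha x, hx]
    have : Complex.exp (((2 * π * n : ℝ) : ℂ) * I) = 1 := by
      rw [Complex.exp_eq_one_iff]
      exact ⟨n, by push_cast; ring⟩
    rw [this, mul_one]
  have hQ : QQ s a (x : ℂ) ≠ 0 := QQ_ne s a ha _ (by rw [Complex.ofReal_im])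
  obtain ⟨N, hN⟩ : ∃ N : ℂ → ℂ, N = fun z => I * (QQ s a z + PP s a z) := ⟨_, rfl⟩
  obtain ⟨D, hD⟩ : ∃ D : ℂ → ℂ, D = fun z => QQ s a z - PP s a z := ⟨_, rfl⟩
  have hNd : Differentiable ℂ N := by
    rw [hN]
    exact ((diff_QQ s a).add (diff_PP s a)).const_mul I
  have hDd : Differentiable ℂ D := by
    rw [hD]
    exact (diff_QQ s a).sub (diff_PP s a)
  have hM : MM s a = N / D := by
    funext z
    rw [Pi.div_apply, hN, hD]
    rfl
  have hNx : N x ≠ 0 := by
    rw [hN]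
    simp only
    rw [hPQ, ← two_mul]
    exact mul_ne_zero I_ne_zero (mul_ne_zero two_ne_zero hQ)
  have hDx : D x = 0 := by
    rw [hD]
    simp only
    rw [hPQ, sub_self]
  have hNm : ∀ z, MeromorphicAt N z := fun z => (hNd.analyticAt z).meromorphicAt
  have hDm : ∀ z, MeromorphicAt D z := fun z => (hDd.analyticAt z).meromorphicAt
  have oN : meromorphicOrderAt N x = 0 := by
    rw [← tendsto_ne_zero_iff_meromorphicOrderAt_eq_zero (hNm _)]
    exact ⟨N x, hNx, (hNd.continuous.tendsto _).mono_left nhdsWithin_le_nhds⟩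
  have oD : 0 < meromorphicOrderAt D x := by
    rw [← tendsto_zero_iff_meromorphicOrderAt_pos (hDm _)]
    have h := (hDd.continuous.tendsto (x : ℂ)).mono_left (nhdsWithin_le_nhds (s := {(x : ℂ)}ᶜ))
    rw [hDx] at h
    exact h
  obtain ⟨i₀, hi₀⟩ := hs
  have hDa : D (a i₀) ≠ 0 := by
    rw [hD]
    simp only
    have h1 : PP s a (a i₀) = 0 := by
      unfold PP
      exact Finset.prod_eq_zero hi₀ (sub_self _)
    rw [h1, sub_zero]
    exact QQ_ne s a ha _ (ha i₀ hi₀).le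
  have oDa : meromorphicOrderAt D (a i₀) = 0 := by
    rw [← tendsto_ne_zero_iff_meromorphicOrderAt_eq_zero (hDm _)]
    exact ⟨D (a i₀), hDa, (hDd.continuous.tendsto _).mono_left nhdsWithin_le_nhds⟩
  have oDt : meromorphicOrderAt D x ≠ ⊤ := by
    have h1 : MeromorphicOn D Set.univ := fun z _ => hDm z
    apply h1.meromorphicOrderAt_ne_top_of_isPreconnected (x := a i₀) isPreconnected_univ
      (Set.mem_univ _) (Set.mem_univ _)
    rw [oDa]
    exact WithTop.zero_ne_top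
  have oM : meromorphicOrderAt (MM s a) x = -meromorphicOrderAt D x := by
    rw [hM, meromorphicOrderAt_div (hNm _) (hDm _), oN, zero_sub]
  unfold poleMult
  rw [oM]
  obtain ⟨k, hk⟩ := WithTop.ne_top_iff_exists.mp oDt
  rw [← hk] at oD ⊢
  have hk0 : 0 < k := by exact_mod_cast oD
  rw [WithTop.untop₀_neg, WithTop.untop₀_coe, neg_neg]
  omega

theorem t_POLE : S_POLE := by
  intro ι s a hs ha U x1 x2 K hx hU hth
  have hpi := Real.pi_pos
  obtain ⟨n0, hn0⟩ : ∃ n0 : ℤ, n0 = ⌊theta s a x1 / (2 * π)⌋ := ⟨_, rfl⟩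
  have h1 : (n0 : ℝ) * (2 * π) ≤ theta s a x1 := by
    rw [← le_div_iff₀ (by positivity), hn0]
    exact Int.floor_le _
  have h2 : theta s a x1 < ((n0 : ℝ) + 1) * (2 * π) := by
    rw [← div_lt_iff₀ (by positivity), hn0]
    exact Int.lt_floor_add_one _
  have h3 : ∀ k : Fin K, ∃ x : ℝ, x1 < x ∧ x < x2 ∧
      theta s a x = 2 * π * ((n0 + 1 + (k : ℕ) : ℤ) : ℝ) := by
    intro k
    have hk : ((k : ℕ) : ℝ) + 1 ≤ K := by exact_mod_cast k.2
    have hk0 : (0 : ℝ) ≤ ((k : ℕ) : ℝ) := Nat.cast_nonneg _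
    have h4 : 2 * π * ((n0 + 1 + (k : ℕ) : ℤ) : ℝ) ∈ Set.Ioo (theta s a x1) (theta s a x2) := by
      push_cast
      constructor
      · nlinarith
      · nlinarith
    obtain ⟨x, hx', hx2⟩ := intermediate_value_Ioo hx.le (cont_theta s a).continuousOn h4
    exact ⟨x, hx'.1, hx'.2, hx2⟩
  choose x hxa hxb hxc using h3
  have hinj : Function.Injective (fun k => (x k : ℂ)) := by
    intro k l hkl
    have h4 : x k = x l := Complex.ofReal_injective hkl
    have h5 := hxc k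
    rw [h4, hxc l] at h5
    have h6 : ((n0 + 1 + (l : ℕ) : ℤ) : ℝ) = ((n0 + 1 + (k : ℕ) : ℤ) : ℝ) :=
      mul_left_cancel₀ (by positivity) h5
    have h7 : (n0 + 1 + (l : ℕ) : ℤ) = (n0 + 1 + (k : ℕ) : ℤ) := by exact_mod_cast h6
    apply Fin.ext
    omega
  classical
  obtain ⟨Fs, hFs⟩ : ∃ Fs : Finset ℂ, Fs = Finset.univ.image (fun k => (x k : ℂ)) := ⟨_, rfl⟩
  have hFU : (Fs : Set ℂ) ⊆ U := by
    intro z hz
    rw [hFs, Finset.coe_image] at hz
    obtain ⟨k, _, rfl⟩ := hz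
    exact hU _ (hxa k) (hxb k)
  have hsum : K ≤ ∑ z ∈ Fs, poleMult (MM s a) z := by
    have h4 : Fs.card = K := by
      rw [hFs, Finset.card_image_of_injective _ hinj, Finset.card_univ, Fintype.card_fin]
    calc K = ∑ z ∈ Fs, 1 := by rw [Finset.sum_const, smul_eq_mul, mul_one, h4]
      _ ≤ _ := by
        apply Finset.sum_le_sum
        intro z hz
        rw [hFs, Finset.mem_image] at hz
        obtain ⟨k, _, rfl⟩ := hz
        exact pole s a hs ha (x k) _ (hxc k)
  unfold poleCount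
  refine le_trans ?_ (le_iSup (fun F : {F : Finset ℂ // (F : Set ℂ) ⊆ U} =>
    ((∑ z ∈ F.1, poleMult (MM s a) z : ℕ) : ℕ∞)) ⟨Fs, hFU⟩)
  exact_mod_cast hsum

end Pool.Agent.Y369.NV
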